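import Mathlib

set_option autoImplicit false

namespace Pool.MP_59b15d_al.SymH

open FreeGroup

section tree

variable {α : Type*} [DecidableEq α]

/-- The length of the common beginning of two lists. -/
def baCp {β : Type*} [DecidableEq β] : List β → List β → ℕ
  | a :: x, b :: y => if a = b then baCp x y + 1 else 0
  | _, _ => 0

theorem baCp_nil_left {β : Type*} [DecidableEq β] (x : List β) : baCp [] x = 0 := by
  cases x <;> rfl

theorem baCp_nil_right {β : Type*} [DecidableEq β] (x : List β) : baCp x [] = 0 := by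
  cases x <;> rfl

theorem baCp_cons {β : Type*} [DecidableEq β] (a b : β) (x y : List β) :
    baCp (a :: x) (b :: y) = if a = b then baCp x y + 1 else 0 := rfl

theorem baCp_comm {β : Type*} [DecidableEq β] (x y : List β) : baCp x y = baCp y x := by
  induction x generalizing y with
  | nil => rw [baCp_nil_left, baCp_nil_right]
  | cons a x ih =>
    cases y with
    | nil => rw [baCp_nil_left, baCp_nil_right]
    | cons b y =>
      rw [baCp_cons, baCp_cons, ih]
      by_cases h : a = b
      · subst h; rfl
      · rw [if_neg h, if_neg (fun h' => h h'.symm)]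

theorem baCp_min {β : Type*} [DecidableEq β] (x y z : List β) :
    min (baCp x y) (baCp y z) ≤ baCp x z := by
  induction x generalizing y z with
  | nil => rw [baCp_nil_left]; exact min_le_left _ _
  | cons a x ih =>
    cases y with
    | nil => rw [baCp_nil_right, baCp_nil_left]; simp
    | cons b y =>
      cases z with
      | nil => rw [baCp_nil_right, baCp_nil_right]; simp
      | cons c z =>
        rw [baCp_cons, baCp_cons, baCp_cons]
        by_cases h1 : a = b
        · subst h1
          by_cases h2 : a = c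
          · subst h2
            have := ih y z
            simp only [if_true]
            omega
          · simp [h2]
        · simp [h1]

theorem baNorm_list (x y : List (α × Bool)) (hx : IsReduced x) (hy : IsReduced y) :
    (FreeGroup.mk (invRev x ++ y)).norm + 2 * baCp x y = x.length + y.length := by
  induction x generalizing y with
  | nil =>
    rw [baCp_nil_left, invRev_empty, List.nil_append, FreeGroup.norm, toWord_mk, hy.reduce_eq]
    simp
  | cons a x ih =>
    cases y with
    | nil =>
      rw [baCp_nil_right, List.append_nil, FreeGroup.norm, toWord_mk, reduce_invRev, hx.reduce_eq,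
        invRev_length]
      simp
    | cons b y =>
      rw [baCp_cons]
      by_cases h : a = b
      · subst h
        have hx' : IsReduced x := List.IsChain.tail hx
        have hy' : IsReduced y := List.IsChain.tail hy
        have h1 := ih y hx' hy'
        have h2 : (FreeGroup.mk (invRev (a :: x) ++ a :: y)) = FreeGroup.mk (invRev x ++ y) := by
          have e1 : invRev (a :: x) ++ a :: y = invRev x ++ ([(a.1, !a.2)] ++ ([a] ++ y)) := by
            simp [invRev]
          rw [e1, ← mul_mk, ← mul_mk, ← mul_mk, ← mul_mk]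
          have e2 : FreeGroup.mk [(a.1, !a.2)] = (FreeGroup.mk [a])⁻¹ := by
            rw [inv_mk]
            simp [invRev]
          rw [e2, inv_mul_cancel_left]
        rw [h2, if_pos rfl]
        simp only [List.length_cons]
        omega
      · rw [if_neg h]
        have h1 : IsReduced (invRev (a :: x) ++ b :: y) := by
          have h3 : IsReduced (invRev (a :: x)) := by
            rw [isReduced_iff_reduce_eq, reduce_invRev, hx.reduce_eq]
          refine List.IsChain.append h3 hy ?_
          intro c hc d hd h5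
          have h6 : c = (a.1, !a.2) := by
            simp [invRev] at hc
            exact hc.symm
          have h7 : d = b := by
            simp at hd
            exact hd.symm
          subst h6 h7
          by_contra h8
          apply h
          ext
          · exact h5
          · change (!a.2) ≠ d.2 at h8
            revert h8
            cases a.2 <;> cases d.2 <;> simp
        rw [FreeGroup.norm, toWord_mk, h1.reduce_eq]
        simp [invRev_length]

/-- The distance in the tree. -/
theorem baNorm (x y : FreeGroup α) :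
    (x⁻¹ * y).norm + 2 * baCp x.toWord y.toWord = x.norm + y.norm := by
  have h := baNorm_list x.toWord y.toWord isReduced_toWord isReduced_toWord
  rw [← mul_mk, ← inv_mk, mk_toWord, mk_toWord] at h
  exact h

/-- The four point condition, with the identity as one of the points. -/
theorem baFour1 (x y z : FreeGroup α) :
    x.norm + (y⁻¹ * z).norm ≤ max (y.norm + (x⁻¹ * z).norm) (z.norm + (x⁻¹ * y).norm) := by
  have h1 := baNorm y z
  have h2 := baNorm x z
  have h3 := baNorm x y
  have h4 := baCp_min y.toWord x.toWord z.toWord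
  rw [baCp_comm y.toWord x.toWord] at h4
  omega

/-- The four point condition. -/
theorem baFour (w x y z : FreeGroup α) :
    (w⁻¹ * x).norm + (y⁻¹ * z).norm ≤
      max ((w⁻¹ * y).norm + (x⁻¹ * z).norm) ((w⁻¹ * z).norm + (x⁻¹ * y).norm) := by
  have h := baFour1 (w⁻¹ * x) (w⁻¹ * y) (w⁻¹ * z)
  have e1 : (w⁻¹ * y)⁻¹ * (w⁻¹ * z) = y⁻¹ * z := by group
  have e2 : (w⁻¹ * x)⁻¹ * (w⁻¹ * z) = x⁻¹ * z := by group
  have e3 : (w⁻¹ * x)⁻¹ * (w⁻¹ * y) = x⁻¹ * y := by group
  rwa [e1, e2, e3] at h

theorem baSq (v : FreeGroup α) (hv : v ≠ 1) : v.norm < (v * v).norm := by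
  have h0 := reduceCyclically.reduce_flatten_replicate_succ (L := v.toWord) isReduced_toWord 1
  have h1 : (v * v).toWord = reduce ((List.replicate 2 v.toWord).flatten) := by
    rw [toWord_mul]
    simp [List.replicate]
  have h2 := reduceCyclically.conj_conjugator_reduceCyclically v.toWord
  have h3 : reduceCyclically v.toWord ≠ [] := by
    intro h
    rw [h, List.append_nil] at h2
    apply hv
    rw [← mk_toWord (x := v), ← h2, ← mul_mk, ← inv_mk, mul_inv_cancel]
  have h4 := List.length_pos_iff.mpr h3
  have h5 := congrArg List.length h2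
  rw [FreeGroup.norm, FreeGroup.norm, h1, h0]
  simp only [List.length_append, invRev_length, List.replicate, List.flatten_cons,
    List.flatten_nil, List.append_nil] at h5 ⊢
  omega

/-- The length of a commutator. -/
theorem baComm (u v : FreeGroup α) (hu : u ≠ 1) (hv : v ≠ 1)
    (h1 : u.norm ≤ (u * v).norm) (h2 : u.norm ≤ (u * v⁻¹).norm)
    (h3 : v.norm ≤ (v * u).norm) (h4 : v.norm ≤ (u * v⁻¹).norm) :
    (u * v * u⁻¹ * v⁻¹).norm + u.norm + v.norm =
      (u * v).norm + (u * v⁻¹).norm + (v * u).norm := by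
  have hu2 := baSq u hu
  have hv2 := baSq v hv
  have nu : (u⁻¹).norm = u.norm := norm_inv_eq
  have nv : (v⁻¹).norm = v.norm := norm_inv_eq
  have nB : (v * u⁻¹).norm = (u * v⁻¹).norm := by
    rw [← norm_inv_eq]
    congr 1
    group
  have nC : (u⁻¹ * v⁻¹).norm = (v * u).norm := by
    rw [← norm_inv_eq]
    congr 1
    group
  -- exclusion of the degenerate cases
  have k1 := baFour 1 u⁻¹ v v⁻¹
  have k2 := baFour 1 v⁻¹ u u⁻¹
  have e1 : (1 : FreeGroup α)⁻¹ * u⁻¹ = u⁻¹ := by group
  have e2 : (1 : FreeGroup α)⁻¹ * v = v := by group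
  have e3 : (1 : FreeGroup α)⁻¹ * v⁻¹ = v⁻¹ := by group
  have e4 : (1 : FreeGroup α)⁻¹ * u = u := by group
  have e5 : v⁻¹ * v⁻¹ = (v * v)⁻¹ := by group
  have e6 : u⁻¹ * u⁻¹ = (u * u)⁻¹ := by group
  rw [e1, e2, e3, e5, inv_inv, nu, nv, norm_inv_eq] at k1
  rw [e1, e3, e4, e6, inv_inv, nu, nv, norm_inv_eq, nB] at k2
  -- the word `u v u⁻¹`
  have p1 := baFour 1 (u * v) u (u * v * u⁻¹)
  have p2 := baFour 1 (u * v * u⁻¹) u (u * v)
  have f1 : (1 : FreeGroup α)⁻¹ * (u * v) = u * v := by group
  have f2 : (1 : FreeGroup α)⁻¹ * (u * v * u⁻¹) = u * v * u⁻¹ := by group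
  have f3 : (u * v)⁻¹ * (u * v * u⁻¹) = u⁻¹ := by group
  have f4 : u⁻¹ * (u * v * u⁻¹) = v * u⁻¹ := by group
  have f5 : (u * v)⁻¹ * u = v⁻¹ := by group
  have f6 : u⁻¹ * (u * v) = v := by group
  have f7 : (u * v * u⁻¹)⁻¹ * (u * v) = u := by group
  have f8 : (u * v * u⁻¹)⁻¹ * u = u * v⁻¹ := by group
  rw [f1, e4, f2, f3, f4, f5, nu, nv, nB] at p1
  rw [f2, e4, f1, f6, f7, f8] at p2
  -- the commutator
  have q1 := baFour 1 (u * v * u⁻¹) (u * v) (u * v * u⁻¹ * v⁻¹)
  have q2 := baFour 1 (u * v * u⁻¹ * v⁻¹) (u * v) (u * v * u⁻¹)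
  have g1 : (1 : FreeGroup α)⁻¹ * (u * v * u⁻¹ * v⁻¹) = u * v * u⁻¹ * v⁻¹ := by group
  have g2 : (u * v)⁻¹ * (u * v * u⁻¹ * v⁻¹) = u⁻¹ * v⁻¹ := by group
  have g3 : (u * v * u⁻¹)⁻¹ * (u * v * u⁻¹ * v⁻¹) = v⁻¹ := by group
  have g4 : (u * v * u⁻¹ * v⁻¹)⁻¹ * (u * v * u⁻¹) = v := by group
  have g5 : (u * v * u⁻¹ * v⁻¹)⁻¹ * (u * v) = v * u := by group
  rw [f2, f1, g1, g2, g3, f7, nv, nC] at q1
  rw [g1, f1, f2, f3, g4, g5, nu] at q2
  omega

end tree

end Pool.MP_59b15d_al.SymH
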