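import Mathlib
import Pool.Agent.H.MP_59b15d_al.h94b.Tree

set_option autoImplicit false

namespace Pool.MP_59b15d_al.SymH

open FreeGroup (of reduce invRev)

/-- The words of length at most two in two letters. -/
def baW : List (List (Fin 2 × Bool)) :=
  [[], [(0, true)], [(0, false)], [(1, true)], [(1, false)],
    [(0, true), (0, true)], [(0, true), (0, false)], [(0, true), (1, true)], [(0, true), (1, false)],
    [(0, false), (0, true)], [(0, false), (0, false)], [(0, false), (1, true)],
    [(0, false), (1, false)],
    [(1, true), (0, true)], [(1, true), (0, false)], [(1, true), (1, true)], [(1, true), (1, false)],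
    [(1, false), (0, true)], [(1, false), (0, false)], [(1, false), (1, true)],
    [(1, false), (1, false)]]

theorem baW_mem (L : List (Fin 2 × Bool)) (h : L.length ≤ 2) : L ∈ baW := by
  have h1 : ∀ x : Fin 2 × Bool, [x] ∈ baW := by decide
  have h2 : ∀ x y : Fin 2 × Bool, [x, y] ∈ baW := by decide
  match L, h with
  | [], _ => exact List.mem_cons_self
  | [x], _ => exact h1 x
  | [x, y], _ => exact h2 x y
  | x :: y :: z :: L, h => simp at h

theorem baCheck : ∀ x ∈ baW, ∀ y ∈ baW,
    reduce (x ++ y ++ invRev x ++ invRev y) = [(0, true), (1, true), (0, false), (1, false)] →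
    x.length ≤ (reduce (x ++ y)).length → x.length ≤ (reduce (x ++ invRev y)).length →
    y.length ≤ (reduce (y ++ x)).length → y.length ≤ (reduce (x ++ invRev y)).length →
    (x = [(0, true)] ∧ y = [(1, true)]) ∨ (x = [(1, false)] ∧ y = [(1, true), (0, true)]) ∨
      (x = [(0, true), (1, true)] ∧ y = [(0, false)]) := by
  decide

end Pool.MP_59b15d_al.SymH
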