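import Mathlib
import Pool.Agent.H.MP_59b15d_al.h76m.Hh
import Pool.Agent.H.MP_59b15d_al.h94b.Words

set_option autoImplicit false

namespace Pool.MP_59b15d_al.SymH

open FreeGroup (of reduce invRev)
open Pool.MP_59b15d_al.H76

theorem baMin (u v : F2) (hu : u ≠ 1) (hv : v ≠ 1) (hc : u * v * u⁻¹ * v⁻¹ = gc)
    (h1 : u.norm ≤ (u * v).norm) (h2 : u.norm ≤ (u * v⁻¹).norm)
    (h3 : v.norm ≤ (v * u).norm) (h4 : v.norm ≤ (u * v⁻¹).norm) :
    (u = of 0 ∧ v = of 1) ∨ (u = (of 1)⁻¹ ∧ v = of 1 * of 0) ∨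
      (u = of 0 * of 1 ∧ v = (of 0)⁻¹) := by
  have hc4 : (gc : F2).toWord = [(0, true), (1, true), (0, false), (1, false)] := by
    have e : gc = FreeGroup.mk [(0, true), (1, true), (0, false), (1, false)] := rfl
    rw [e, FreeGroup.toWord_mk]
    decide
  have hn : (u * v * u⁻¹ * v⁻¹).norm = 4 := by
    rw [hc, FreeGroup.norm, hc4]
    rfl
  have h5 := baComm u v hu hv h1 h2 h3 h4
  rw [hn] at h5
  -- parity
  have p1 := baNorm u⁻¹ v
  have p2 := baNorm u⁻¹ v⁻¹
  have p3 := baNorm v⁻¹ u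
  rw [inv_inv, FreeGroup.norm_inv_eq] at p1 p3
  rw [inv_inv, FreeGroup.norm_inv_eq, FreeGroup.norm_inv_eq] at p2
  have hu0 : 1 ≤ u.norm := by
    rw [Nat.one_le_iff_ne_zero, Ne, FreeGroup.norm_eq_zero]
    exact hu
  have hv0 : 1 ≤ v.norm := by
    rw [Nat.one_le_iff_ne_zero, Ne, FreeGroup.norm_eq_zero]
    exact hv
  have hu2 := baSq u hu
  have hv2 := baSq v hv
  have k1 := baFour 1 u⁻¹ v v⁻¹
  have k2 := baFour 1 v⁻¹ u u⁻¹
  have nu : (u⁻¹).norm = u.norm := FreeGroup.norm_inv_eq
  have nv : (v⁻¹).norm = v.norm := FreeGroup.norm_inv_eq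
  have nB : (v * u⁻¹).norm = (u * v⁻¹).norm := by
    rw [← FreeGroup.norm_inv_eq]
    congr 1
    group
  have e1 : (1 : F2)⁻¹ * u⁻¹ = u⁻¹ := by group
  have e2 : (1 : F2)⁻¹ * v = v := by group
  have e3 : (1 : F2)⁻¹ * v⁻¹ = v⁻¹ := by group
  have e4 : (1 : F2)⁻¹ * u = u := by group
  have e5 : v⁻¹ * v⁻¹ = (v * v)⁻¹ := by group
  have e6 : u⁻¹ * u⁻¹ = (u * u)⁻¹ := by group
  rw [e1, e2, e3, e5, inv_inv, nu, nv, FreeGroup.norm_inv_eq] at k1
  rw [e1, e3, e4, e6, inv_inv, nu, nv, FreeGroup.norm_inv_eq, nB] at k2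
  have hu3 : u.norm ≤ 2 := by omega
  have hv3 : v.norm ≤ 2 := by omega
  have h6 := baCheck u.toWord (baW_mem _ hu3) v.toWord (baW_mem _ hv3) (by
    rw [← hc4, ← hc]
    conv_rhs => rw [← FreeGroup.mk_toWord (x := u), ← FreeGroup.mk_toWord (x := v)]
    rw [FreeGroup.inv_mk, FreeGroup.inv_mk, FreeGroup.mul_mk, FreeGroup.mul_mk, FreeGroup.mul_mk,
      FreeGroup.toWord_mk])
  rw [← FreeGroup.toWord_inv, ← FreeGroup.toWord_mul, ← FreeGroup.toWord_mul,
    ← FreeGroup.toWord_mul] at h6
  have h7 := h6 h1 h2 h3 h4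
  rcases h7 with ⟨a1, a2⟩ | ⟨a1, a2⟩ | ⟨a1, a2⟩
  · left
    constructor
    · rw [← FreeGroup.mk_toWord (x := u), a1]; rfl
    · rw [← FreeGroup.mk_toWord (x := v), a2]; rfl
  · right; left
    constructor
    · rw [← FreeGroup.mk_toWord (x := u), a1]; rfl
    · rw [← FreeGroup.mk_toWord (x := v), a2]; rfl
  · right; right
    constructor
    · rw [← FreeGroup.mk_toWord (x := u), a1]; rfl
    · rw [← FreeGroup.mk_toWord (x := v), a2]; rfl

theorem ba_al : al ∈ PhiI := Subgroup.subset_closure (Or.inl (by simp))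
theorem ba_be : be ∈ PhiI := Subgroup.subset_closure (Or.inl (by simp))

/-- The stabiliser of the commutator is generated by the two twists. -/
theorem Fx_le_PhiI : Fx ≤ PhiI := by
  have key : ∀ (n : ℕ) (f : MulAut F2), f ∈ Fx → (f (of 0)).norm + (f (of 1)).norm ≤ n →
      f ∈ PhiI := by
    intro n
    induction n with
    | zero =>
      intro f _ hn
      exfalso
      have h1 : (f (of 0)).norm = 0 := by omega
      rw [FreeGroup.norm_eq_zero] at h1
      have h2 : (of 0 : F2) = 1 := f.injective (by rw [h1, map_one])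
      exact FreeGroup.of_ne_one _ h2
    | succ n ih =>
      intro f hf hn
      have hu : f (of 0) ≠ 1 := by
        intro h1
        have h2 : (of 0 : F2) = 1 := f.injective (by rw [h1, map_one])
        exact FreeGroup.of_ne_one _ h2
      have hv : f (of 1) ≠ 1 := by
        intro h1
        have h2 : (of 1 : F2) = 1 := f.injective (by rw [h1, map_one])
        exact FreeGroup.of_ne_one _ h2
      have halF : al ∈ Fx := al_gc
      have hbeF : be ∈ Fx := be_gc
      by_cases h1 : (f (of 0)).norm ≤ (f (of 0) * f (of 1)).norm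
      swap
      · have h2 : f * be ∈ PhiI := by
          apply ih _ (Fx.mul_mem hf hbeF)
          rw [MulAut.mul_apply, MulAut.mul_apply, be_a, be_b, map_mul]
          omega
        have h3 := PhiI.mul_mem h2 (PhiI.inv_mem ba_be)
        rwa [mul_inv_cancel_right] at h3
      by_cases h2 : (f (of 0)).norm ≤ (f (of 0) * (f (of 1))⁻¹).norm
      swap
      · have h3 : f * be⁻¹ ∈ PhiI := by
          apply ih _ (Fx.mul_mem hf (Fx.inv_mem hbeF))
          rw [MulAut.mul_apply, MulAut.mul_apply, MulAut.inv_apply, MulAut.inv_apply, be_inv_a,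
            be_inv_b, map_mul, map_inv]
          omega
        have h4 := PhiI.mul_mem h3 ba_be
        rwa [inv_mul_cancel_right] at h4
      by_cases h3 : (f (of 1)).norm ≤ (f (of 1) * f (of 0)).norm
      swap
      · have h4 : f * al ∈ PhiI := by
          apply ih _ (Fx.mul_mem hf halF)
          rw [MulAut.mul_apply, MulAut.mul_apply, al_a, al_b, map_mul]
          omega
        have h5 := PhiI.mul_mem h4 (PhiI.inv_mem ba_al)
        rwa [mul_inv_cancel_right] at h5
      have nB : (f (of 1) * (f (of 0))⁻¹).norm = (f (of 0) * (f (of 1))⁻¹).norm := by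
        rw [← FreeGroup.norm_inv_eq]
        congr 1
        group
      by_cases h4 : (f (of 1)).norm ≤ (f (of 0) * (f (of 1))⁻¹).norm
      swap
      · have h5 : f * al⁻¹ ∈ PhiI := by
          apply ih _ (Fx.mul_mem hf (Fx.inv_mem halF))
          rw [MulAut.mul_apply, MulAut.mul_apply, MulAut.inv_apply, MulAut.inv_apply, al_inv_a,
            al_inv_b, map_mul, map_inv, nB]
          omega
        have h6 := PhiI.mul_mem h5 ba_al
        rwa [inv_mul_cancel_right] at h6
      have hc : f (of 0) * f (of 1) * (f (of 0))⁻¹ * (f (of 1))⁻¹ = gc := by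
        have h5 : f gc = gc := hf
        have h6 : f gc = f (of 0) * f (of 1) * (f (of 0))⁻¹ * (f (of 1))⁻¹ := by
          rw [gc, map_mul, map_mul, map_mul, map_inv, map_inv]
        rw [← h6, h5]
      rcases baMin _ _ hu hv hc h1 h2 h3 h4 with ⟨a1, a2⟩ | ⟨a1, a2⟩ | ⟨a1, a2⟩
      · have : f = 1 := aut_ext2 a1 a2
        rw [this]
        exact PhiI.one_mem
      · have h5 : f * be = al := by
          apply aut_ext2
          · rw [MulAut.mul_apply, be_a, map_mul, a1, a2, al_a]; group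
          · rw [MulAut.mul_apply, be_b, a2, al_b]
        have h6 := PhiI.mul_mem ba_al (PhiI.inv_mem ba_be)
        rwa [← h5, mul_inv_cancel_right] at h6
      · have h5 : f * al = be := by
          apply aut_ext2
          · rw [MulAut.mul_apply, al_a, a1, be_a]
          · rw [MulAut.mul_apply, al_b, map_mul, a1, a2, be_b]; group
        have h6 := PhiI.mul_mem ba_be (PhiI.inv_mem ba_al)
        rwa [← h5, mul_inv_cancel_right] at h6
  exact fun f hf => key _ f hf le_rfl

end Pool.MP_59b15d_al.SymH
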