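import Mathlib
import Pool.Agent.H.MP_59b15d_al.h94b.Twist

set_option autoImplicit false

namespace Pool.MP_59b15d_al.SymH

open FreeGroup (of)
open Pool.MP_59b15d_al.H76

/-- The congruence subgroup property of the torus with one boundary component: the stabiliser of the
commutator in the group of automorphisms of the free group of rank two. -/
theorem torus (H : Subgroup (MulAut F2)) (hH : H.relIndex Fx ≠ 0) :
    ∃ U : Subgroup F2, U.Normal ∧ U.FiniteIndex ∧
      ∀ f : MulAut F2, f gc = gc → (∀ z, f z * z⁻¹ ∈ U) → f ∈ H := by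
  have hn := InnF_normal
  have hcc : ∀ k : ℤ, MulAut.conj (gc ^ k) ∈ Fx := by
    intro k
    change MulAut.conj (gc ^ k) gc = gc
    rw [MulAut.conj_apply]
    group
  -- a power of the conjugation by the commutator lies in `H`
  obtain ⟨e, he0, -, heH⟩ := Subgroup.exists_pow_mem_of_relIndex_ne_zero hH (hcc 1)
  rw [zpow_one] at heH
  have : NeZero e := ⟨by omega⟩
  have hK0f : (toHeis (ZMod e)).ker.FiniteIndex := Subgroup.finiteIndex_ker _
  obtain ⟨M', hM'n, hM'f, hM'le, hM'⟩ := free_center (0 : Fin 2) 1 (by decide) (toHeis (ZMod e)).ker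
  obtain ⟨K', hKc', hKf', hK'⟩ := exists_char_le M' hM'f
  -- the part of `H` acting trivially modulo `K'`
  let D₁ : Subgroup Fx := (H ⊓ trivMod K').comap Fx.subtype
  have hD₁ : D₁.FiniteIndex := by
    have h1 : (H.comap Fx.subtype).FiniteIndex := by
      refine ⟨?_⟩
      rw [Subgroup.index_comap, Subgroup.range_subtype]
      exact hH
    have h2 : ((trivMod K').comap Fx.subtype).FiniteIndex :=
      comap_fi _ (trivMod_finiteIndex hKc' hKf')
    have h3 : D₁ = H.comap Fx.subtype ⊓ (trivMod K').comap Fx.subtype := rfl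
    rw [h3]
    exact inferInstance
  obtain ⟨K, hKc, hKf, hK⟩ := AFPhi (D₁.map Fx.subtype ⊔ InnF)
    (fun x => Subgroup.mem_sup_right ⟨x, rfl⟩) (D_fi D₁ hD₁)
  have hKn : K.Normal := inferInstance
  have hKn' : K'.Normal := inferInstance
  refine ⟨K ⊓ K', inferInstance, inferInstance, fun f hf hfz => ?_⟩
  have h1 : f ∈ D₁.map Fx.subtype ⊔ InnF := by
    refine hK f (Fx_le_PhiI hf) ⟨1, fun x => ?_⟩
    rw [one_mul, inv_one, mul_one]
    exact (hfz x).1
  obtain ⟨_, ⟨d, hd, rfl⟩, _, ⟨m, rfl⟩, hdm⟩ := Subgroup.mem_sup_of_normal_right.mp h1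
  have hd1 : (d : MulAut F2) ∈ H := hd.1
  have hd2 : (d : MulAut F2) ∈ trivMod K' := hd.2
  have h4 : MulAut.conj m = (d : MulAut F2)⁻¹ * f := by
    rw [← hdm]
    change _ = (d : MulAut F2)⁻¹ * ((d : MulAut F2) * MulAut.conj m)
    rw [inv_mul_cancel_left]
  have h2 : MulAut.conj m ∈ trivMod K' := by
    have h3 : f ∈ trivMod K' := fun z => (hfz z).2
    rw [h4]
    exact (trivMod K').mul_mem ((trivMod K').inv_mem hd2) h3
  have h3 : m ∈ (toHeis (ZMod e)).ker := hM' m (hK' (h2 (of 0))) (hK' (h2 (of 1)))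
  -- `m` is a power of the commutator
  have h5 : MulAut.conj m ∈ Fx := by
    rw [h4]
    exact Fx.mul_mem (Fx.inv_mem d.2) hf
  have h6 : MulAut.conj m gc = gc := h5
  rw [MulAut.conj_apply] at h6
  obtain ⟨k, rfl⟩ := centralizer_gc m (mul_inv_eq_iff_eq_mul.mp h6)
  rw [MonoidHom.mem_ker, map_zpow, toHeis_c, Heis.zpow_central _ rfl rfl] at h3
  have h7 := congrArg Heis.z h3
  simp only [mul_one, Heis.one_z] at h7
  obtain ⟨l, rfl⟩ := (ZMod.intCast_zmod_eq_zero_iff_dvd _ _).mp h7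
  have h8 : MulAut.conj (gc ^ ((e : ℤ) * l)) ∈ H := by
    rw [zpow_mul, zpow_natCast, map_zpow, map_pow]
    exact H.zpow_mem heH.1 l
  rw [← hdm]
  exact H.mul_mem hd1 h8

end Pool.MP_59b15d_al.SymH
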